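import Pool.Agent.LPC.Stmts

/-!
# Row PDF of squad LPC: positivity of the quadratic form
-/

set_option autoImplicit false

noncomputable section

open MeasureTheory Filter Topology
open scoped RealInnerProductSpace

namespace Pool.Agent.LPC.H52

variable {n : ℕ}

/-- the integral of `φ(·, w)` over the measure `ν` -/
def av (ν : Measure (V n)) (f : ℝ → ℝ) (w : V n) : ℝ := ∫ u : V n, f ⟪u, w⟫ ∂ν

theorem ib {g : V n → ℝ} (hg : Integrable g) {h : V n → ℝ} (hm : StronglyMeasurable h) {K : ℝ}
    (hK : ∀ w, |h w| ≤ K) : Integrable (fun w => g w * h w) :=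
  hg.mul_bdd (c := K) hm.aestronglyMeasurable (Eventually.of_forall hK)

theorem swap {ν : Measure (V n)} [IsFiniteMeasure ν] {g : V n → ℝ} (hg : Integrable g)
    {φ : V n → V n → ℝ} (hφ : StronglyMeasurable (Function.uncurry φ)) {K : ℝ}
    (hK : ∀ u w, |φ u w| ≤ K) :
    ∫ u, (∫ w, g w * φ u w) ∂ν = ∫ w, g w * ∫ u, φ u w ∂ν := by
  have h1 : Integrable (Function.uncurry (fun u w => g w * φ u w)) (ν.prod volume) :=
    (hg.comp_snd ν).mul_bdd (c := K) hφ.aestronglyMeasurable
      (Eventually.of_forall fun p => hK p.1 p.2)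
  rw [integral_integral_swap h1]
  refine integral_congr_ae (Eventually.of_forall fun w => ?_)
  exact integral_const_mul _ _

theorem av_meas {ν : Measure (V n)} [IsFiniteMeasure ν] {f : ℝ → ℝ} (hf : Continuous f) :
    StronglyMeasurable (av (n := n) ν f) := by
  have h1 : Continuous (Function.uncurry (fun w u : V n => f ⟪u, w⟫)) :=
    hf.comp (continuous_snd.inner continuous_fst)
  exact h1.stronglyMeasurable.integral_prod_right

theorem av_bd {ν : Measure (V n)} [IsFiniteMeasure ν] {f : ℝ → ℝ} (hf : ∀ t, |f t| ≤ 1) (w : V n) :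
    |av ν f w| ≤ (ν Set.univ).toReal := by
  have := norm_integral_le_of_norm_le_const (μ := ν) (f := fun u : V n => f ⟪u, w⟫) (C := 1)
    (Eventually.of_forall fun u => hf _)
  simpa [av, Measure.real] using this

theorem av_int {ν : Measure (V n)} [IsFiniteMeasure ν] {f : ℝ → ℝ} (hf : Continuous f)
    (hb : ∀ t, |f t| ≤ 1) (w : V n) : Integrable (fun u : V n => f ⟪u, w⟫) ν := by
  have h1 : Continuous (fun u : V n => f ⟪u, w⟫) := hf.comp (continuous_id.inner continuous_const)
  exact Integrable.of_bound h1.stronglyMeasurable.aestronglyMeasurable 1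
    (Eventually.of_forall fun u => hb _)

theorem addf {ν : Measure (V n)} [IsFiniteMeasure ν] (x w : V n) :
    ∫ u, Real.cos ⟪x - u, w⟫ ∂ν =
      Real.cos ⟪x, w⟫ * av ν Real.cos w + Real.sin ⟪x, w⟫ * av ν Real.sin w := by
  have h1 : ∀ u : V n, Real.cos ⟪x - u, w⟫ =
      Real.cos ⟪x, w⟫ * Real.cos ⟪u, w⟫ + Real.sin ⟪x, w⟫ * Real.sin ⟪u, w⟫ := by
    intro u
    rw [inner_sub_left, Real.cos_sub]
  simp only [h1]
  rw [integral_add ((av_int Real.continuous_cos Real.abs_cos_le_one w).const_mul _)
    ((av_int Real.continuous_sin Real.abs_sin_le_one w).const_mul _), integral_const_mul,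
    integral_const_mul]
  rfl

theorem bil {ν : Measure (V n)} [IsFiniteMeasure ν] {g : V n → ℝ} (hg : Integrable g) (x : V n) :
    ∫ u, (∫ w, g w * Real.cos ⟪x - u, w⟫) ∂ν =
      ∫ w, g w * (Real.cos ⟪x, w⟫ * av ν Real.cos w + Real.sin ⟪x, w⟫ * av ν Real.sin w) := by
  have h1 : Continuous (Function.uncurry (fun u w : V n => Real.cos ⟪x - u, w⟫)) :=
    Real.continuous_cos.comp ((continuous_const.sub continuous_fst).inner continuous_snd)
  rw [swap hg h1.stronglyMeasurable (K := 1) fun u w => Real.abs_cos_le_one _]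
  refine integral_congr_ae (Eventually.of_forall fun w => ?_)
  show g w * _ = g w * _
  rw [addf]

theorem bilbil {ν : Measure (V n)} [IsFiniteMeasure ν] {g : V n → ℝ} (hg : Integrable g) :
    ∫ u, (∫ v, (∫ w, g w * Real.cos ⟪u - v, w⟫) ∂ν) ∂ν =
      ∫ w, g w * (av ν Real.cos w * av ν Real.cos w + av ν Real.sin w * av ν Real.sin w) := by
  simp only [bil hg]
  have hc : StronglyMeasurable (Function.uncurry (fun u w : V n => Real.cos ⟪u, w⟫)) :=
    (Real.continuous_cos.comp (continuous_fst.inner continuous_snd)).stronglyMeasurable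
  have hs : StronglyMeasurable (Function.uncurry (fun u w : V n => Real.sin ⟪u, w⟫)) :=
    (Real.continuous_sin.comp (continuous_fst.inner continuous_snd)).stronglyMeasurable
  have hC : StronglyMeasurable (fun p : V n × V n => av ν Real.cos p.2) :=
    (av_meas Real.continuous_cos).comp_measurable measurable_snd
  have hS : StronglyMeasurable (fun p : V n × V n => av ν Real.sin p.2) :=
    (av_meas Real.continuous_sin).comp_measurable measurable_snd
  have hm : StronglyMeasurable (Function.uncurry (fun u w : V n =>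
      Real.cos ⟪u, w⟫ * av ν Real.cos w + Real.sin ⟪u, w⟫ * av ν Real.sin w)) :=
    (hc.mul hC).add (hs.mul hS)
  set K : ℝ := (ν Set.univ).toReal with hKdef
  rw [swap hg hm (K := K + K) ?_]
  · refine integral_congr_ae (Eventually.of_forall fun w => ?_)
    show g w * _ = g w * _
    congr 1
    rw [integral_add ((av_int Real.continuous_cos Real.abs_cos_le_one w).mul_const _)
      ((av_int Real.continuous_sin Real.abs_sin_le_one w).mul_const _), integral_mul_const,
      integral_mul_const]
    rfl
  · intro u w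
    have h1 := av_bd (ν := ν) Real.abs_cos_le_one w
    have h2 := av_bd (ν := ν) Real.abs_sin_le_one w
    have h3 := Real.abs_cos_le_one ⟪u, w⟫
    have h4 := Real.abs_sin_le_one ⟪u, w⟫
    refine (abs_add_le _ _).trans (add_le_add ?_ ?_)
    · rw [abs_mul]
      exact (mul_le_of_le_one_left (abs_nonneg _) h3).trans h1
    · rw [abs_mul]
      exact (mul_le_of_le_one_left (abs_nonneg _) h4).trans h2

theorem pdf : PdfStmt := by
  intro n g hg hg0 X R c
  have : IsFiniteMeasure ((volume : Measure (V n)).restrict (Metric.ball (0 : V n) R)) :=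
    ⟨by rw [Measure.restrict_apply_univ]; exact measure_ball_lt_top⟩
  set ν := (volume : Measure (V n)).restrict (Metric.ball (0 : V n) R) with hν
  set K : ℝ := (ν Set.univ).toReal with hKdef
  have hK0 : 0 ≤ K := ENNReal.toReal_nonneg
  -- the sums over `X`
  set cX : V n → ℝ := fun w => ∑ x ∈ X, Real.cos ⟪x, w⟫ with hcX
  set sX : V n → ℝ := fun w => ∑ x ∈ X, Real.sin ⟪x, w⟫ with hsX
  have hcm : StronglyMeasurable cX := by
    have : Continuous cX := by
      refine continuous_finsetSum _ fun x _ => ?_
      exact Real.continuous_cos.comp (continuous_const.inner continuous_id)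
    exact this.stronglyMeasurable
  have hsm : StronglyMeasurable sX := by
    have : Continuous sX := by
      refine continuous_finsetSum _ fun x _ => ?_
      exact Real.continuous_sin.comp (continuous_const.inner continuous_id)
    exact this.stronglyMeasurable
  have hcb : ∀ w, |cX w| ≤ X.card := by
    intro w
    refine (Finset.abs_sum_le_sum_abs _ _).trans ?_
    refine (Finset.sum_le_sum fun x _ => Real.abs_cos_le_one _).trans ?_
    simp
  have hsb : ∀ w, |sX w| ≤ X.card := by
    intro w
    refine (Finset.abs_sum_le_sum_abs _ _).trans ?_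
    refine (Finset.sum_le_sum fun x _ => Real.abs_sin_le_one _).trans ?_
    simp
  have hCm : StronglyMeasurable (av ν Real.cos) := av_meas Real.continuous_cos
  have hSm : StronglyMeasurable (av ν Real.sin) := av_meas Real.continuous_sin
  have hCb : ∀ w, |av ν Real.cos w| ≤ K := av_bd Real.abs_cos_le_one
  have hSb : ∀ w, |av ν Real.sin w| ≤ K := av_bd Real.abs_sin_le_one
  have prod : ∀ {p q : V n → ℝ} {a b : ℝ}, StronglyMeasurable p → StronglyMeasurable q →
      (∀ w, |p w| ≤ a) → (∀ w, |q w| ≤ b) → 0 ≤ a → Integrable (fun w => g w * (p w * q w)) := by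
    intro p q a b hp hq hpa hqb ha
    refine ib hg (hp.mul hq) (K := a * b) fun w => ?_
    show |p w * q w| ≤ a * b
    rw [abs_mul]
    exact mul_le_mul (hpa w) (hqb w) (abs_nonneg _) ha
  have hX0 : (0 : ℝ) ≤ X.card := Nat.cast_nonneg _
  have icc := prod hcm hcm hcb hcb hX0
  have iss := prod hsm hsm hsb hsb hX0
  have icC := prod hcm hCm hcb hCb hX0
  have isS := prod hsm hSm hsb hSb hX0
  have iCC := prod hCm hCm hCb hCb hK0
  have iSS := prod hSm hSm hSb hSb hK0
  have iA : Integrable (fun w => g w * (cX w * cX w + sX w * sX w)) := by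
    simpa only [mul_add, Pi.add_apply] using! icc.add iss
  have iB : Integrable (fun w => g w * (cX w * av ν Real.cos w + sX w * av ν Real.sin w)) := by
    simpa only [mul_add, Pi.add_apply] using! icC.add isS
  have iC : Integrable (fun w => g w * (av ν Real.cos w * av ν Real.cos w +
      av ν Real.sin w * av ν Real.sin w)) := by
    simpa only [mul_add, Pi.add_apply] using! iCC.add iSS
  have icos : ∀ x : V n, Integrable (fun w => g w * Real.cos ⟪x, w⟫) := by
    intro x
    refine ib hg (K := 1) ?_ fun w => Real.abs_cos_le_one _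
    exact (Real.continuous_cos.comp (continuous_const.inner continuous_id)).stronglyMeasurable
  have tA : ∑ x ∈ X, ∑ y ∈ X, (∫ w : V n, g w * Real.cos ⟪x - y, w⟫) =
      ∫ w, g w * (cX w * cX w + sX w * sX w) := by
    have h1 : ∀ x ∈ X, ∑ y ∈ X, (∫ w : V n, g w * Real.cos ⟪x - y, w⟫) =
        ∫ w : V n, ∑ y ∈ X, g w * Real.cos ⟪x - y, w⟫ := by
      intro x _
      rw [integral_finsetSum]
      intro y _
      exact icos _
    rw [Finset.sum_congr rfl h1, ← integral_finsetSum]
    · refine integral_congr_ae (Eventually.of_forall fun w => ?_)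
      show ∑ x ∈ X, ∑ y ∈ X, g w * Real.cos ⟪x - y, w⟫ = g w * (cX w * cX w + sX w * sX w)
      rw [hcX, hsX]
      simp only
      rw [Finset.sum_mul_sum, Finset.sum_mul_sum, ← Finset.sum_add_distrib, Finset.mul_sum]
      refine Finset.sum_congr rfl fun x _ => ?_
      rw [← Finset.sum_add_distrib, Finset.mul_sum]
      refine Finset.sum_congr rfl fun y _ => ?_
      rw [inner_sub_left, Real.cos_sub]
    · intro x _
      exact integrable_finsetSum _ fun y _ => icos _
  have tB : ∑ x ∈ X, (∫ u, (∫ w : V n, g w * Real.cos ⟪x - u, w⟫) ∂ν) =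
      ∫ w, g w * (cX w * av ν Real.cos w + sX w * av ν Real.sin w) := by
    have h1 : ∀ x : V n, Integrable (fun w => g w * (Real.cos ⟪x, w⟫ * av ν Real.cos w +
        Real.sin ⟪x, w⟫ * av ν Real.sin w)) := by
      intro x
      have e1 : StronglyMeasurable (fun w : V n => Real.cos ⟪x, w⟫) :=
        (Real.continuous_cos.comp (continuous_const.inner continuous_id)).stronglyMeasurable
      have e2 : StronglyMeasurable (fun w : V n => Real.sin ⟪x, w⟫) :=
        (Real.continuous_sin.comp (continuous_const.inner continuous_id)).stronglyMeasurable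
      have j1 := prod e1 hCm (fun w => Real.abs_cos_le_one _) hCb zero_le_one
      have j2 := prod e2 hSm (fun w => Real.abs_sin_le_one _) hSb zero_le_one
      simpa only [mul_add, Pi.add_apply] using! j1.add j2
    rw [Finset.sum_congr rfl fun x _ => bil hg x, ← integral_finsetSum _ fun x _ => h1 x]
    refine integral_congr_ae (Eventually.of_forall fun w => ?_)
    show ∑ x ∈ X, g w * (Real.cos ⟪x, w⟫ * av ν Real.cos w + Real.sin ⟪x, w⟫ * av ν Real.sin w) =
      g w * (cX w * av ν Real.cos w + sX w * av ν Real.sin w)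
    rw [hcX, hsX]
    simp only
    rw [Finset.sum_mul, Finset.sum_mul, ← Finset.sum_add_distrib, Finset.mul_sum]
  have tC := bilbil (ν := ν) hg
  show 0 ≤ (∑ x ∈ X, ∑ y ∈ X, (∫ w : V n, g w * Real.cos ⟪x - y, w⟫))
    - 2 * c * (∑ x ∈ X, (∫ u, (∫ w : V n, g w * Real.cos ⟪x - u, w⟫) ∂ν))
    + c ^ 2 * (∫ u, (∫ v, (∫ w, g w * Real.cos ⟪u - v, w⟫) ∂ν) ∂ν)
  have iAB : Integrable (fun w => g w * (cX w * cX w + sX w * sX w) -
      2 * c * (g w * (cX w * av ν Real.cos w + sX w * av ν Real.sin w))) :=
    iA.sub (iB.const_mul _)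
  rw [tA, tB, tC, ← integral_const_mul, ← integral_const_mul,
    ← integral_sub iA (iB.const_mul _), ← integral_add iAB (iC.const_mul _)]
  refine integral_nonneg fun w => ?_
  have h1 : g w * (cX w * cX w + sX w * sX w) -
      2 * c * (g w * (cX w * av ν Real.cos w + sX w * av ν Real.sin w)) +
      c ^ 2 * (g w * (av ν Real.cos w * av ν Real.cos w + av ν Real.sin w * av ν Real.sin w)) =
      g w * ((cX w - c * av ν Real.cos w) ^ 2 + (sX w - c * av ν Real.sin w) ^ 2) := by ring
  show 0 ≤ g w * (cX w * cX w + sX w * sX w) -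
      2 * c * (g w * (cX w * av ν Real.cos w + sX w * av ν Real.sin w)) +
      c ^ 2 * (g w * (av ν Real.cos w * av ν Real.cos w + av ν Real.sin w * av ν Real.sin w))
  rw [h1]
  exact mul_nonneg (hg0 w) (add_nonneg (sq_nonneg _) (sq_nonneg _))

end Pool.Agent.LPC.H52
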